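import Mathlib
import Pool.Agent.H.MP_9fd1ce_al.B

namespace Pool.Agent.Results.MP_9fd1ce_al.No
open Pool.Agent.H.MP_9fd1ce_al

theorem result (S : Finset (FreeGroup (Fin 2)))
    (hS : ∀ g ∈ S, ∃ b : FreeGroupBasis (Fin 2) (FreeGroup (Fin 2)), ∃ i, b i = g) :
    ∃ T T' : CVTree, (∀ g ∈ S, T.tl g = T'.tl g) ∧ ∃ g, T.tl g ≠ T'.tl g := by
  obtain ⟨ψ, h⟩ := prim S hS
  refine ⟨TB ψ, TT ψ, fun g hg => ?_, _, diff ψ⟩
  obtain ⟨k, L, h | h⟩ := h g hg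
  · simpa only [CVTree.tl_conj] using same ψ _ L h
  · simpa only [CVTree.tl_conj, CVTree.tl_inv] using same ψ _ L h

end Pool.Agent.Results.MP_9fd1ce_al.No
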